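import Pool.Agent.PCL.Stmts

/-!
Squad PCL (MP_1fc801_co), row ARI (helper19): the arithmetic lemma.
-/

set_option autoImplicit false

namespace Pool.Agent.PCL.H19

theorem ari (h1 : MomStmt) (h2 : BgpStmt) (h3 : PpwStmt) : AriStmt := by
  classical
  intro m σ f R y Z k Δ A G δ hP hm hZ hy hδ hΔ hR hG hA c1 c2 c3 c4 c5 c6
  by_contra hcon
  push Not at hcon
  set U : ℝ := 2 * (R : ℝ) + 1 with hU
  have hU0 : 0 < U := by positivity
  have hy0 : (0 : ℝ) < y := by
    have : 0 < y := by omega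
    exact_mod_cast this
  have hZ0 : (0 : ℝ) < Z := by
    have : 0 < Z := by omega
    exact_mod_cast this
  set M : ℕ := m * (m + 1) / 2 with hM
  set A1 : Finset ℤ := A.filter fun a => ∃ p : ℕ, p.Prime ∧ y < p ∧ p ∣ G a with hA1
  set A2 : Finset ℤ := A.filter fun a => ∃ p j : ℕ, p.Prime ∧ p ≤ y ∧ Z ^ M ≤ p ^ j ∧ p ^ j ∣ G a
    with hA2
  set A3 : Finset ℤ := A.filter fun a => ∃ S : Finset ℕ, S.card = k ∧
    (∀ p ∈ S, p.Prime ∧ p ≤ y) ∧ ∀ p ∈ S, p ∣ G a with hA3
  have hf : ∀ a ∈ A, ∀ n : ℕ, n ∣ G a → ∀ s, (n : ℤ) ∣ (f s).eval a := fun a ha n hn s =>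
    dvd_trans (Int.natCast_dvd_natCast.mpr hn) ((hG a ha).2.2 s)
  -- the first set
  have b1 := h2 m σ f R y Δ A1 hP (fun a ha => hR a (Finset.mem_filter.mp ha).1) hΔ (by omega)
    (by
      intro a ha
      obtain ⟨haA, p, hp, hpy, hpG⟩ := Finset.mem_filter.mp ha
      exact ⟨p, hp, hpy, dvd_trans (Int.natCast_dvd_natCast.mpr hpG) (hG a haA).2.1,
        hf a haA p hpG⟩)
  -- the second set
  have b2 := h3 m σ f R y Z A2 hP (fun a ha => hR a (Finset.mem_filter.mp ha).1) hm hZ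
    (by
      intro a ha
      obtain ⟨haA, p, j, hp, hpy, hpj, hpG⟩ := Finset.mem_filter.mp ha
      refine ⟨p, j, hp, hpy, hpj, fun s => ?_⟩
      have := hf a haA (p ^ j) hpG s
      rwa [Nat.cast_pow] at this)
  -- the third set
  have b3 := h1 m σ f R y k A3 hP (fun a ha => hR a (Finset.mem_filter.mp ha).1) hm (by omega)
    (by
      intro a ha
      obtain ⟨haA, S, hSk, hS, hSG⟩ := Finset.mem_filter.mp ha
      exact ⟨S, hSk, hS, fun p hp s => hf a haA p (hSG p hp) s⟩)
  -- the cover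
  have hcov : A ⊆ A1 ∪ (A2 ∪ A3) := by
    intro a ha
    by_contra hn
    rw [Finset.mem_union, Finset.mem_union, not_or, not_or] at hn
    obtain ⟨n1, n2, n3⟩ := hn
    have hG0 : G a ≠ 0 := (hG a ha).1.ne'
    have m1 : ∀ p ∈ (G a).primeFactors, p ≤ y := by
      intro p hp
      by_contra hlt
      exact n1 (Finset.mem_filter.mpr ⟨ha, p, Nat.prime_of_mem_primeFactors hp, by omega,
        Nat.dvd_of_mem_primeFactors hp⟩)
    have m2 : ∀ p ∈ (G a).primeFactors, p ^ (G a).factorization p ≤ Z ^ M := by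
      intro p hp
      by_contra hlt
      exact n2 (Finset.mem_filter.mpr ⟨ha, p, (G a).factorization p,
        Nat.prime_of_mem_primeFactors hp, m1 p hp, by omega, Nat.ordProj_dvd (G a) p⟩)
    have m3 : (G a).primeFactors.card ≤ k := by
      by_contra hlt
      obtain ⟨S, hS, hSk⟩ := Finset.exists_subset_card_eq (s := (G a).primeFactors) (n := k)
        (by omega)
      exact n3 (Finset.mem_filter.mpr ⟨ha, S, hSk,
        fun p hp => ⟨Nat.prime_of_mem_primeFactors (hS hp), m1 p (hS hp)⟩,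
        fun p hp => Nat.dvd_of_mem_primeFactors (hS hp)⟩)
    have hbig := hcon a ha
    have hle : G a ≤ (Z ^ M) ^ k := by
      calc G a = ∏ p ∈ (G a).primeFactors, p ^ (G a).factorization p :=
            (Nat.prod_factorization_pow_eq_self hG0).symm
        _ ≤ ∏ _p ∈ (G a).primeFactors, Z ^ M := Finset.prod_le_prod' m2
        _ = (Z ^ M) ^ (G a).primeFactors.card := by rw [Finset.prod_const]
        _ ≤ (Z ^ M) ^ k := Nat.pow_le_pow_right (Nat.pow_pos (by omega)) m3
    omega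
  have hcard : (A.card : ℝ) ≤ A1.card + (A2.card + A3.card) := by
    have := (Finset.card_le_card hcov).trans ((Finset.card_union_le _ _).trans
      (Nat.add_le_add_left (Finset.card_union_le A2 A3) _))
    exact_mod_cast this
  have d1 : (A1.card : ℝ) ≤ δ * U / 4 := by
    refine b1.trans ?_
    have e1 : (m : ℝ) * Real.logb 2 |(Δ : ℝ)| * (U / y) ≤ δ * U / 8 := by
      rw [← mul_div_assoc, div_le_iff₀ hy0]
      nlinarith
    have e2 : (m : ℝ) * Real.logb 2 |(Δ : ℝ)| ≤ δ * U / 8 := by linarith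
    rw [← hU]
    linarith
  have d2 : (A2.card : ℝ) ≤ δ * U / 4 := by
    refine b2.trans ?_
    have e1 : (y : ℝ) * ((m : ℝ) * (U / Z)) ≤ δ * U / 8 := by
      rw [← mul_div_assoc, ← mul_div_assoc, div_le_iff₀ hZ0]
      nlinarith
    rw [← hU]
    linarith
  have d3 : (A3.card : ℝ) ≤ δ * U / 4 := by
    refine b3.trans ?_
    have e1 : U * (((m : ℝ) * (1 + Real.log y)) ^ k / k.factorial) ≤ U * (δ / 8) :=
      mul_le_mul_of_nonneg_left c5 hU0.le
    rw [← hU]
    linarith
  have hδU : 0 < δ * U := mul_pos hδ hU0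
  linarith

end Pool.Agent.PCL.H19
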