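import Pool.Agent.PCL.Stmts

/-!
Squad PCL (MP_1fc801_co), row FIN (helper19): the theorem.
-/

set_option autoImplicit false

open Filter

namespace Pool.Agent.PCL.H19

/-- the conditions for large `n` -/
lemma large (K c CM : ℝ) (hc : 0 < c) : ∃ n₀ : ℕ, ∀ n : ℕ, n₀ ≤ n →
    0 < (n : ℝ) ∧ 3 ≤ Real.log n ∧ CM ≤ Real.log n ∧ 1 ≤ Real.log (Real.log n) ∧
    Real.log (Real.log n) ≤ c * n ∧ 4 * K ≤ Real.exp (38 / 100 * Real.log n) := by
  have t1 : Tendsto (fun n : ℕ => Real.log (n : ℝ)) atTop atTop :=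
    Real.tendsto_log_atTop.comp tendsto_natCast_atTop_atTop
  have t2 : Tendsto (fun n : ℕ => Real.log (Real.log (n : ℝ))) atTop atTop :=
    Real.tendsto_log_atTop.comp t1
  have t3 : Tendsto (fun n : ℕ => Real.exp (38 / 100 * Real.log (n : ℝ))) atTop atTop :=
    Real.tendsto_exp_atTop.comp (t1.const_mul_atTop (by norm_num))
  have t4 : ∀ᶠ n : ℕ in atTop, ‖Real.log (n : ℝ)‖ ≤ c * ‖(n : ℝ)‖ :=
    tendsto_natCast_atTop_atTop.eventually (Real.isLittleO_log_id_atTop.bound hc)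
  have t5 : ∀ᶠ n : ℕ in atTop, 1 ≤ n := eventually_ge_atTop 1
  obtain ⟨n₀, hn₀⟩ := (((((t1.eventually_ge_atTop 3).and (t1.eventually_ge_atTop CM)).and
    (t2.eventually_ge_atTop 1)).and (t3.eventually_ge_atTop (4 * K))).and
      (t4.and t5)).exists_forall_of_atTop
  refine ⟨n₀, fun n hn => ?_⟩
  obtain ⟨⟨⟨⟨a1, a2⟩, a3⟩, a4⟩, a5, a6⟩ := hn₀ n hn
  have hn0 : (0 : ℝ) < n := by
    have : 0 < n := a6
    exact_mod_cast this
  refine ⟨hn0, a1, a2, a3, ?_, a4⟩
  rw [Real.norm_of_nonneg (by linarith), Real.norm_of_nonneg hn0.le] at a5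
  exact (Real.log_le_self (by linarith)).trans a5

theorem fin (hcnt : CntStmt) (hdst : DstStmt) (hmnt : MntStmt) (hpig : PigStmt) : FinStmt := by
  classical
  intro d K hK
  obtain ⟨CM, hCM, hM⟩ := hmnt d
  have hCM0 : 0 < CM := by linarith
  set c : ℝ := 1 / (4 * K * CM) with hc
  have hc0 : 0 < c := by positivity
  obtain ⟨n₀, hn₀⟩ := large K c CM hc0
  refine ⟨c, 4 * CM + 57 ^ d * K, hc0, by positivity, n₀, ?_⟩
  intro g N a P hg hP hn hprod hnd
  obtain ⟨p0, p1, p2, p3, p4, p5⟩ := hn₀ P.card hn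
  generalize hnn : (P.card : ℝ) = n at *
  set L : ℝ := Real.log n with hL
  set LL : ℝ := Real.log L with hLL
  set N' : Fin d → ℕ := fun i => max (N i) 1 with hN'
  have hN1 : ∀ i, 1 ≤ N' i := fun i => le_max_right _ _
  have hN1r : ∀ i, (1 : ℝ) ≤ N' i := fun i => by exact_mod_cast hN1 i
  -- the points of `P`
  have hPb : ∀ z ∈ P, ∃ x ∈ bx N' 1, z = a + pt g x := by
    intro z hz
    obtain ⟨x, hx, hzx⟩ := hP z hz
    refine ⟨x, ?_, hzx⟩
    rw [mem_bx]
    intro i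
    have h1 : |x i| ≤ (N' i : ℤ) := (hx i).trans (by exact_mod_cast le_max_left _ _)
    rw [one_mul]
    exact_mod_cast h1
  have hn1 : n ≤ 3 ^ d * ∏ i, (N' i : ℝ) := by
    have h1 : P ⊆ (bx N' 1).image (fun x => a + pt g x) := by
      intro z hz
      obtain ⟨x, hx, hzx⟩ := hPb z hz
      exact Finset.mem_image.mpr ⟨x, hx, hzx.symm⟩
    have h2 : (P.card : ℝ) ≤ (bx N' 1).card := by
      exact_mod_cast (Finset.card_le_card h1).trans Finset.card_image_le
    have h3 := (hcnt (Fin d) N' 1 zero_le_one).2.2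
    rw [← hnn]
    refine h2.trans (h3.trans ?_)
    calc ∏ i, (2 * (1 * (N' i : ℝ)) + 1) ≤ ∏ i, (3 * (N' i : ℝ)) := by
          refine Finset.prod_le_prod (fun i _ => by positivity) fun i _ => ?_
          linarith [hN1r i]
      _ = 3 ^ d * ∏ i, (N' i : ℝ) := by
          rw [Finset.prod_mul_distrib]
          simp
  have hn2 : ∏ i, (N' i : ℝ) ≤ K * n := by
    refine le_trans (Finset.prod_le_prod (fun i _ => by positivity) fun i _ => ?_) hprod
    have h1 : N' i ≤ 2 * N i + 1 := by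
      simp only [hN']
      omega
    exact_mod_cast h1
  have hn3 : ∀ i, (N' i : ℝ) ≤ K * n := by
    intro i
    refine le_trans ?_ hn2
    rw [← Finset.mul_prod_erase Finset.univ _ (Finset.mem_univ i)]
    have h1 : (1 : ℝ) ≤ ∏ j ∈ Finset.univ.erase i, (N' j : ℝ) := by
      have := Finset.prod_le_prod (s := Finset.univ.erase i) (f := fun _ => (1 : ℝ))
        (g := fun j => (N' j : ℝ)) (fun _ _ => zero_le_one) (fun j _ => hN1r j)
      simpa using this
    nlinarith [hN1r i]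
  have hpr0 : 0 < ∏ i, (N' i : ℝ) := Finset.prod_pos fun i _ => by linarith [hN1r i]
  -- the parameter
  set Q : ℕ := ⌈2 * L⌉₊ with hQ
  have hQ1 : 2 * L ≤ Q := Nat.le_ceil _
  have hQ2 : (Q : ℝ) ≤ 3 * L := by
    have := (Nat.ceil_lt_add_one (show (0 : ℝ) ≤ 2 * L by linarith)).le
    linarith
  have hlQ0 : 0 ≤ Real.log Q := Real.log_nonneg (by linarith)
  have hlQ : Real.log Q ≤ 2 * LL := by
    have h1 : Real.log Q ≤ Real.log (3 * L) := Real.log_le_log (by linarith) hQ2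
    rw [Real.log_mul (by norm_num) (by linarith)] at h1
    have h2 : Real.log 3 ≤ LL := Real.log_le_log (by norm_num) p1
    linarith
  have hpow : ∀ i, 4 * N' i ≤ 2 ^ Q := by
    intro i
    have h1 : (4 * N' i : ℝ) ≤ 2 ^ Q := by
      have e1 : Real.exp L = n := Real.exp_log p0
      have e2 : (2 : ℝ) ^ Q = Real.exp (Real.log 2 * Q) := by
        rw [Real.exp_mul, Real.exp_log (by norm_num), Real.rpow_natCast]
      have e3 : (4 * N' i : ℝ) ≤ Real.exp (38 / 100 * L) * Real.exp L := by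
        rw [e1]
        have := hn3 i
        nlinarith
      rw [← Real.exp_add] at e3
      rw [e2]
      refine e3.trans (Real.exp_le_exp.mpr ?_)
      have e4 := Real.log_two_gt_d9
      nlinarith
    exact_mod_cast h1
  -- orthogonal pairs
  have hd := hdst (Fin d) g N' a P hg hPb
  rw [hnn] at hd
  have hprp : n * LL ≤ 2 * c * prp g N' 4 := by
    have h1 : ((nd P : ℝ) + 1) * LL ≤ 2 * c * n := by nlinarith
    have h2 : n ^ 2 * LL ≤ 2 * c * n * prp g N' 4 := by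
      calc n ^ 2 * LL ≤ (((nd P : ℝ) + 1) * prp g N' 4) * LL :=
            mul_le_mul_of_nonneg_right hd (by linarith)
        _ = (((nd P : ℝ) + 1) * LL) * prp g N' 4 := by ring
        _ ≤ (2 * c * n) * prp g N' 4 := mul_le_mul_of_nonneg_right h1 (Nat.cast_nonneg _)
    have h3 : n * (n * LL) ≤ n * (2 * c * prp g N' 4) := by nlinarith
    exact le_of_mul_le_mul_left h3 p0
  have hmain : CM * Real.log Q * ∏ i, (N' i : ℝ) ≤ prp g N' 4 := by
    have h1 : (∏ i, (N' i : ℝ)) * LL ≤ K * (2 * c * prp g N' 4) := by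
      calc (∏ i, (N' i : ℝ)) * LL ≤ K * n * LL := mul_le_mul_of_nonneg_right hn2 (by linarith)
        _ = K * (n * LL) := by ring
        _ ≤ _ := mul_le_mul_of_nonneg_left hprp hK.le
    have h2 : K * (2 * c * prp g N' 4) = prp g N' 4 / (2 * CM) := by
      rw [hc]
      field_simp
      ring
    rw [h2, le_div_iff₀ (by positivity)] at h1
    have h3 : CM * Real.log Q * ∏ i, (N' i : ℝ) ≤ CM * (2 * LL) * ∏ i, (N' i : ℝ) := by
      gcongr
    linarith
  obtain ⟨e, he, hcn⟩ := hM (Fin d) g N' Q (Fintype.card_fin d) hN1 hg (by linarith) hpow hmain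
  obtain ⟨z₀, hz⟩ := hpig (Fin d) g N' a e P hg he hPb
  refine ⟨z₀, e, he, ?_⟩
  rw [hnn] at hz
  generalize (P.filter fun p => ∃ t : ℝ, p = z₀ + t * e).card = w at *
  have hb9 : ((bx N' 9).card : ℝ) ≤ 19 ^ d * (K * n) := by
    have h3 := (hcnt (Fin d) N' 9 (by norm_num)).2.2
    refine h3.trans ?_
    calc ∏ i, (2 * (9 * (N' i : ℝ)) + 1) ≤ ∏ i, (19 * (N' i : ℝ)) := by
          refine Finset.prod_le_prod (fun i _ => by positivity) fun i _ => ?_
          linarith [hN1r i]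
      _ = 19 ^ d * ∏ i, (N' i : ℝ) := by
          rw [Finset.prod_mul_distrib]
          simp
      _ ≤ _ := mul_le_mul_of_nonneg_left hn2 (by positivity)
  have hcw : (cnt (Lat g e) N' 8 : ℝ) ≤ 19 ^ d * K * w := by
    have h1 : n * cnt (Lat g e) N' 8 ≤ n * (19 ^ d * K * w) := by
      refine hz.trans ((mul_le_mul_of_nonneg_right hb9 (Nat.cast_nonneg _)).trans (le_of_eq ?_))
      ring
    exact le_of_mul_le_mul_left h1 p0
  have hsq : Real.sqrt n ≤ 3 ^ d * Real.sqrt (∏ i, (N' i : ℝ)) := by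
    refine (Real.sqrt_le_sqrt hn1).trans ?_
    rw [Real.sqrt_mul (by positivity)]
    refine mul_le_mul_of_nonneg_right ?_ (Real.sqrt_nonneg _)
    rw [Real.sqrt_le_left (by positivity)]
    have : (1 : ℝ) ≤ 3 ^ d := one_le_pow₀ (by norm_num)
    nlinarith
  have hlog : CM * (Real.log Q) ^ 2 ≤ 4 * CM * LL ^ 2 := by
    have : (Real.log Q) ^ 2 ≤ (2 * LL) ^ 2 := pow_le_pow_left₀ hlQ0 hlQ 2
    nlinarith
  have hconst : (57 : ℝ) ^ d * K ≤ Real.exp (57 ^ d * K * LL ^ 2) := by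
    have h1 : (57 : ℝ) ^ d * K ≤ 57 ^ d * K * LL ^ 2 := by
      have h2 : (1 : ℝ) ≤ LL ^ 2 := one_le_pow₀ p3
      have h3 : 0 < (57 : ℝ) ^ d * K := by positivity
      nlinarith
    have h2 := Real.add_one_le_exp ((57 : ℝ) ^ d * K * LL ^ 2)
    linarith
  calc Real.sqrt n ≤ 3 ^ d * Real.sqrt (∏ i, (N' i : ℝ)) := hsq
    _ ≤ 3 ^ d * (Real.exp (CM * (Real.log Q) ^ 2) * (19 ^ d * K * w)) := by
        refine mul_le_mul_of_nonneg_left ?_ (by positivity)
        exact hcn.trans (mul_le_mul_of_nonneg_left hcw (Real.exp_pos _).le)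
    _ ≤ 3 ^ d * (Real.exp (4 * CM * LL ^ 2) * (19 ^ d * K * w)) := by gcongr
    _ = (57 ^ d * K) * Real.exp (4 * CM * LL ^ 2) * w := by
        have : (57 : ℝ) ^ d = 3 ^ d * 19 ^ d := by rw [← mul_pow]; norm_num
        rw [this]
        ring
    _ ≤ Real.exp (57 ^ d * K * LL ^ 2) * Real.exp (4 * CM * LL ^ 2) * w := by gcongr
    _ = Real.exp ((4 * CM + 57 ^ d * K) * LL ^ 2) * w := by
        rw [← Real.exp_add]
        congr 2
        ring

end Pool.Agent.PCL.H19
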